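import Pool.Agent.H614.MM.Fin
import Pool.Agent.R882.UC

/-!
# Iitaka's inequality for the images of varieties of small degree

Let `V` be any smooth projective variety of dimension `n`, `V ⇢ Y` a generically finite rational map to
a variety `Y` in projective space, `H` the pull-back of the hyperplane class, and `V ⇢ W` any dominant
rational map of finite degree `r`; nothing else is assumed about `W` or about this map. Suppose that
`Positive` holds for `r`: for each variety between `V` and `Y`, with function field `F ≠ ℂ(Y)`, some
section of `K_V - m H`, for some `m` with `r ≤ [ℂ(V) : F] m`, has a nonzero trace to it. (If the degree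
of `V ⇢ Y` is a prime number, this says that `H⁰(V, K_V - m H) ≠ 0` for some `m ≥ r`.) Suppose also that
`Y` is uniruled (for instance `Y = ℙⁿ`), or that `V ⇢ W` does not factor through `V ⇢ Y`.

The theorem is about all fibrations `W → B` (of smooth models; all rational maps `W ⇢ B` onto varieties
are allowed), with generic fibre `F`:

* `κ(W) ≥ κ(F) + κ(B)`, unless both `F` and `B` are of general type;
* if `κ(B) ≥ 0` then `κ(W) ≥ κ(F) + dim B`, unless `F` is of general type;
* if `Y` is not covered by lines then `κ(W) ≥ κ(F) + κ(B)` without exception.

(The first two inequalities are also true if `F` and `B`, respectively `F`, are of general type, with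
`κ(B)` instead of `dim B`, by the theorems of Viehweg and Kollár, which are not formalised.) The
dimension of `W` is arbitrary.

Proof. If `κ(F) ≥ 0` and `κ(B) ≥ 0` then `W` is not uniruled (`fib_not` in `Pool/Agent/R882/UC.lean`),
hence `V ⇢ W` does not factor through `V ⇢ Y`, and then `κ(W) ≥ n - 1`, and `κ(W) = n` if `Y` is not
covered by lines (`Pool/Agent/H614/MM/Fin.lean`: the traces on `W` of the forms `A(x) ω`, where
`ω ∈ H⁰(V, K_V - m H)`, and a Cayley–Bacharach argument for points with tangent vectors).

The function-field language of the starting repository is used: `K`, `L` and `E` are the function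
fields of `V`, `W` and `B`. A canonical form (`IsPluri 1`) on a variety of dimension `n` is a function
of `n` rational vector fields; it is regular at the prime divisor `P` (`Place`, `Divisorial`, `RegAt`)
if its value on vector fields which are regular at `P` is regular at `P`. `IsUniruled ℂ E n` says that
the variety with the function field `E` is uniruled.
-/

set_option autoImplicit false
set_option linter.overlappingInstances false

open FF Pool.Agent.W602.GT
open Pool.Agent.W619.PQ (IsUniruled)

namespace Pool.Agent.Results.MP_f72953_ag.ImagesOfDegreeAtMostM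

section

variable {K : Type} [Field K] [Algebra ℂ K] {n N : ℕ}

/-- `K` is the function field of a variety `V` of dimension `n`, and `x` is the generic point of a
variety `Y` in projective space with `N` homogeneous coordinates (one of them is normalised to `1`),
the image of `V` under a generically finite rational map; the function field of `Y` is `ℂ(x)`. -/
structure IsBase (n : ℕ) (x : Fin N → K) : Prop where
  ess : Algebra.EssFiniteType ℂ K
  dim : Algebra.trdeg ℂ K = n
  one : ∃ j, x j = 1
  fin : FiniteDimensional (IntermediateField.adjoin ℂ (Set.range x)) K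

/-- `ω` is a section of `K_V - m H`, where `H` is the pull-back of the hyperplane class of `Y`: a
canonical form on `V` such that the products `A(x) ω` are regular at all prime divisors, for all
monomials (hence for all forms) `A` of degree `m`. -/
def IsSection (m : ℕ) (x : Fin N → K) (ω : (Fin n → Derivation ℂ K K) → K) : Prop :=
  IsPluri 1 ω ∧ ∀ (f : Fin m → Fin N) (P : Place ℂ K), Divisorial n P →
    RegAt P (fun D => (∏ k, x (f k)) * ω D)

/-- The trace of the form `ω` to the variety with the function field `F` is not zero. The value of the
trace of `ω` on vector fields `D i` of `F` is the trace of the value of `ω` on the extensions `D' i` of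
the `D i` to `K`. -/
def TraceNe (ω : (Fin n → Derivation ℂ K K) → K) (F : IntermediateField ℂ K) : Prop :=
  ∃ (D : Fin n → Derivation ℂ F F) (D' : Fin n → Derivation ℂ K K),
    (∀ i f, D' i (algebraMap F K f) = algebraMap F K (D i f)) ∧
    Algebra.trace F K (ω D') ≠ 0

/-- `Y` is covered by lines: for some variety `B`, with function field `M`, there is a family over `B`
of lines in projective space, the lines through the points `a` and `b` over `M`, such that the
generic point `a + T b` of the total space of the family is mapped to the generic point `x` of `Y`,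
that is, exactly the equations of `Y` vanish at `a + T b`. -/
def CoveredByLines (x : Fin N → K) : Prop :=
  ∃ (M : Type) (_ : Field M) (_ : Algebra ℂ M) (a b : Fin N → M),
    Algebra.EssFiniteType ℂ M ∧ LinearIndependent M ![a, b] ∧
    ∀ F : MvPolynomial (Fin N) ℂ, MvPolynomial.aeval x F = 0 ↔
      MvPolynomial.aeval (fun j => Polynomial.C (a j) + Polynomial.X * Polynomial.C (b j)) F = 0

/-- For all fields `F` with `ℂ(x) < F ≤ K` there is a section of `K_V - m H` with nonzero trace to
`F`, for some `m` with `r ≤ [K : F] m`. -/
def Positive (n : ℕ) (x : Fin N → K) (r : ℕ) : Prop :=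
  ∀ F : IntermediateField ℂ K, IntermediateField.adjoin ℂ (Set.range x) < F →
    ∃ m : ℕ, r ≤ Module.finrank F K * m ∧
      ∃ ω : (Fin n → Derivation ℂ K K) → K, IsSection m x ω ∧ TraceNe ω F

/-- The map `V ⇢ W` factors through `V ⇢ Y`: all elements of the function field `L` of `W` are
rational functions of `x`. -/
def FactorsThrough (L : Type) [Field L] [Algebra L K] (x : Fin N → K) : Prop :=
  ∀ f : L, algebraMap L K f ∈ IntermediateField.adjoin ℂ (Set.range x)

end

/-- The Kodaira dimension of the smooth projective varieties of dimension `n` over `k` with the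
function field `K` is at least `h`. -/
def KappaGe (k K : Type) [Field k] [Field K] [Algebra k K] (n h : ℕ) : Prop :=
  KodGe k K n (fun _ => False) h

/-- **Iitaka's inequality for images of small degree.** Let `V ⇢ Y` be a generically finite rational
map of varieties of dimension `n`, `Y` with generic point `x`, and `V ⇢ W` a dominant rational map of
finite degree `r = [K : L]`, let `Positive` hold for `r`, and suppose that `Y` is uniruled or that
`V ⇢ W` does not factor through `V ⇢ Y`. Let `W ⇢ B` be a dominant rational map, given by the subfield
`E` of `L`, with `b = dim B`, and `F` its generic fibre, a variety of dimension `f` over `E` with the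
function field `L`. Suppose that `κ(F) ≥ q` and `κ(B) ≥ p`. Then `κ(W) ≥ q + p`, or `q = dim F` and
`p = dim B`; moreover `κ(W) ≥ q + dim B`, or `q = dim F`; and if `Y` is not covered by lines then
always `κ(W) ≥ q + p`. -/
theorem result {n N : ℕ} {K : Type} [Field K] [Algebra ℂ K] {x : Fin N → K} (hx : IsBase n x)
    (L : Type) [Field L] [Algebra ℂ L] [Algebra L K] [IsScalarTower ℂ L K]
    [FiniteDimensional L K] (hp : Positive n x (Module.finrank L K))
    (hY : IsUniruled ℂ (IntermediateField.adjoin ℂ (Set.range x)) n ∨ ¬ FactorsThrough L x)
    (E : IntermediateField ℂ L) [Algebra.EssFiniteType ℂ E] {b f q p : ℕ}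
    (hb : Algebra.trdeg ℂ E = b) (hf : Algebra.trdeg E L = f) (hF : KappaGe E L f q)
    (hB : KappaGe ℂ E b p) :
    (KappaGe ℂ L n (q + p) ∨ (q = f ∧ p = b)) ∧ (KappaGe ℂ L n (q + b) ∨ q = f) ∧
    (¬ CoveredByLines x → KappaGe ℂ L n (q + p)) := by
  classical
  have hess : Algebra.EssFiniteType ℂ K := hx.ess
  have hL : Algebra.trdeg ℂ L = n := Pool.Agent.Y184.NT.trdeg_below (K := K) hx.dim
  have hessL : Algebra.EssFiniteType ℂ L := Pool.Agent.TH466.QG.ess_below (K := K)
  have hbase : Pool.Agent.R882.Over.IsBase n x := ⟨hx.ess, hx.dim, hx.one, hx.fin⟩
  have hdf : b + f = n := by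
    have h3 := trdeg_add_eq ℂ E (A := L)
    rw [hb, hf, hL] at h3
    exact_mod_cast h3
  have hq : q ≤ f := Pool.Agent.R882.UA.kod_le_dim hf hF
  have hpb : p ≤ b := Pool.Agent.R882.UA.kod_le_dim hb hB
  -- the variety `W` is not uniruled
  have hnu : ¬ IsUniruled ℂ L n := fun h5 =>
    Pool.Agent.R882.UA.fib_not hL h5 E hb hf (Pool.Agent.R882.UA.kod_mono hB (Nat.zero_le _))
      (psef_of_kodGe (Pool.Agent.R882.UA.kod_mono hF (Nat.zero_le _)))
  have hnf : ¬ FactorsThrough L x := by
    rcases hY with h | h
    · intro h1
      apply hnu
      exact ((Pool.Agent.H614.MM.main3 (L := L) hbase h hp).out 3 4).2 h1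
    · exact h
  obtain ⟨h1, h2⟩ := Pool.Agent.H614.MM.main2 (L := L) hbase hp hnf
  refine ⟨?_, ?_, fun h => ?_⟩
  · by_cases h3 : q = f ∧ p = b
    · exact Or.inr h3
    · exact Or.inl (Pool.Agent.R882.UA.kod_mono h1 (by omega))
  · by_cases h3 : q = f
    · exact Or.inr h3
    · exact Or.inl (Pool.Agent.R882.UA.kod_mono h1 (by omega))
  · exact Pool.Agent.R882.UA.kod_mono (h2 h) (by omega)

end Pool.Agent.Results.MP_f72953_ag.ImagesOfDegreeAtMostM
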